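import Pool.Agent.Helper76.PB.GoalsF
import Pool.Agent.Helper2.RL.EF1
import Pool.Agent.Helper83.PP.BFRE
import Pool.Agent.Helper32.RD.VAL

/-!
# Project B (MP_fc6b1e_nt), packet PB-XLCF: the norm residue map at a tame prime which is not split
-/

set_option autoImplicit false

namespace Pool.Agent.Helper32.PB

open NumberField Module IsDedekindDomain
open Pool.Agent.Helper51.RP Pool.Agent.Helper42.RD Pool.Agent.Helper42.PP
open Pool.Agent.Helper40.RS (bel gw efg bel_smul lies val_smul)
open Pool.Agent.Helper40.RD (valW ordW bel_of_above)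
open Pool.Agent.Helper32.RDV
open scoped Pointwise

section

variable {F E : Type} [Field F] [NumberField F] [Field E] [NumberField E] [Algebra F E]
  [IsGalois F E]

/-- If there is only one prime above, it is stable. -/
theorem stable {W : HeightOneSpectrum (𝓞 E)}
    (h : ((bel F W).asIdeal.primesOver (𝓞 E)).ncard = 1) (g : E ≃ₐ[F] E) (y : E) :
    W.valuation E (g y) = W.valuation E y := by
  obtain ⟨I, hI⟩ := Set.ncard_eq_one.1 h
  have h1 : W.asIdeal ∈ (bel F W).asIdeal.primesOver (𝓞 E) := ⟨W.isPrime, lies (K := F) W⟩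
  have h2 : (gw g W).asIdeal ∈ (bel F W).asIdeal.primesOver (𝓞 E) := by
    refine ⟨(gw g W).isPrime, ?_⟩
    have : bel F (gw g W) = bel F W := bel_smul g W (gw g W) rfl
    rw [← this]
    exact lies (K := F) (gw g W)
  rw [hI, Set.mem_singleton_iff] at h1 h2
  exact val_smul g W W (h2.trans h1.symm) y

theorem norm_prod (y : E) : algebraMap F E (Algebra.norm F y) = ∏ g : E ≃ₐ[F] E, g y :=
  Algebra.norm_eq_prod_automorphisms F y

theorem trace_sum (y : E) : algebraMap F E (Algebra.trace F E y) = ∑ g : E ≃ₐ[F] E, g y :=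
  trace_eq_sum_automorphisms y

theorem ordv_norm {p : ℕ} (hdeg : finrank F E = p) {W : HeightOneSpectrum (𝓞 E)}
    (hst : ∀ (g : E ≃ₐ[F] E) (y : E), W.valuation E (g y) = W.valuation E y) (y : E) :
    ordv W (algebraMap F E (Algebra.norm F y)) = p * ordv W y := by
  have h1 : W.valuation E (algebraMap F E (Algebra.norm F y)) = W.valuation E y ^ p := by
    rw [norm_prod, map_prod, Finset.prod_congr rfl (fun g _ ↦ hst g y), Finset.prod_const,
      Finset.card_univ, ← Nat.card_eq_fintype_card, IsGalois.card_aut_eq_finrank, hdeg]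
  have h2 := ordv_pow W y p
  unfold ordv at h2 ⊢
  rw [h1, ← map_pow]
  exact h2

theorem val_lt_iff {W : HeightOneSpectrum (𝓞 E)} (he : (bel F W).asIdeal.ramificationIdx' W.asIdeal ≠ 0)
    (x : F) : W.valuation E (algebraMap F E x) < 1 ↔ (bel F W).valuation F x < 1 := by
  rw [valW]
  exact pow_lt_one_iff_of_nonneg zero_le he

/-- The norm of an element close to one is close to one. -/
theorem norm_close {W : HeightOneSpectrum (𝓞 E)}
    (hst : ∀ (g : E ≃ₐ[F] E) (y : E), W.valuation E (g y) = W.valuation E y)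
    (he : (bel F W).asIdeal.ramificationIdx' W.asIdeal ≠ 0) {y : E}
    (hy : W.valuation E (y - 1) < 1) : (bel F W).valuation F (Algebra.norm F y - 1) < 1 := by
  rw [← val_lt_iff he, map_sub, map_one, norm_prod]
  have h1 : ∀ s : Finset (E ≃ₐ[F] E), W.valuation E (∏ g ∈ s, g y - 1) < 1 := by
    intro s
    classical
    induction s using Finset.induction_on with
    | empty => rw [Finset.prod_empty, sub_self, map_zero]; exact zero_lt_one
    | insert g s hg ih =>
      rw [Finset.prod_insert hg]
      refine close_mul W ?_ ih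
      have h2 : g y - 1 = g (y - 1) := by rw [map_sub, map_one]
      rw [h2, hst]
      exact hy
  exact h1 Finset.univ

/-- Every integer of `E` is congruent to one of `F` if `f = 1`. -/
theorem approx_F {W : HeightOneSpectrum (𝓞 E)} (hf : W.asIdeal.inertiaDeg (𝓞 F) = 1) {u : E}
    (hu : W.valuation E u ≤ 1) : ∃ c : 𝓞 F, W.valuation E (u - algebraMap F E (c : F)) < 1 := by
  obtain ⟨r, hr⟩ := approx W hu
  obtain ⟨c, hc⟩ := Pool.Agent.Helper2.RL.residue_surj (K := F) W hf r
  refine ⟨c, ?_⟩
  have h1 : W.valuation E ((r : E) - algebraMap F E (c : F)) < 1 := by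
    have h2 : (r : E) - algebraMap F E (c : F) = ((r - algebraMap (𝓞 F) (𝓞 E) c : 𝓞 E) : E) := by
      show _ = algebraMap (𝓞 E) E (r - algebraMap (𝓞 F) (𝓞 E) c)
      rw [map_sub]
      rfl
    rw [h2]
    exact (mem_iff_val W _).2 hc
  have h3 : u - algebraMap F E (c : F) = ((r : E) - algebraMap F E (c : F)) - ((r : E) - u) := by ring
  rw [h3]
  exact (W.valuation E).map_sub_lt h1 hr

/-- The tame and totally ramified case: `p` divides `N v - 1`. -/
theorem dvd_norm {p : ℕ} [hp : Fact p.Prime] (hdeg : finrank F E = p) {W : HeightOneSpectrum (𝓞 E)}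
    (hst : ∀ (g : E ≃ₐ[F] E) (y : E), W.valuation E (g y) = W.valuation E y)
    (he : (bel F W).asIdeal.ramificationIdx' W.asIdeal = p)
    (hf : W.asIdeal.inertiaDeg (𝓞 F) = 1) (hvp : (bel F W).valuation F (p : F) = 1) {T : E}
    (hT : ordv W T = 1) : p ∣ Ideal.absNorm (bel F W).asIdeal - 1 := by
  classical
  have he0 : (bel F W).asIdeal.ramificationIdx' W.asIdeal ≠ 0 := by rw [he]; exact hp.out.ne_zero
  have hT0 : T ≠ 0 := by
    rintro rfl
    unfold ordv at hT
    rw [map_zero, WithZero.log_zero] at hT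
    omega
  have hVT : W.valuation E T ≠ 0 := (Valuation.ne_zero_iff _).2 hT0
  have hWp : W.valuation E (p : E) = 1 := by
    have h1 : (p : E) = algebraMap F E (p : F) := (map_natCast (algebraMap F E) p).symm
    rw [h1, valW, hvp, one_pow]
  have hcard : Fintype.card (E ≃ₐ[F] E) = p := by
    rw [← Nat.card_eq_fintype_card, IsGalois.card_aut_eq_finrank, hdeg]
  -- some `g` moves `T` modulo `W²`
  have hex : ∃ g : E ≃ₐ[F] E, ¬ W.valuation E (g T - T) < W.valuation E T := by
    by_contra hc
    push Not at hc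
    have h1 : W.valuation E (algebraMap F E (Algebra.trace F E T) - p * T) < W.valuation E T := by
      have h2 : algebraMap F E (Algebra.trace F E T) - p * T = ∑ g : E ≃ₐ[F] E, (g T - T) := by
        rw [trace_sum, Finset.sum_sub_distrib, Finset.sum_const, Finset.card_univ, hcard,
          nsmul_eq_mul]
      rw [h2]
      exact (W.valuation E).map_sum_lt hVT fun g _ ↦ hc g
    have h2 : W.valuation E (p * T) = W.valuation E T := by rw [map_mul, hWp, one_mul]
    have h3 : W.valuation E (algebraMap F E (Algebra.trace F E T)) = W.valuation E T := by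
      rw [← h2]
      apply val_of_close
      rw [h2]
      exact h1
    have h4 : ordv W (algebraMap F E (Algebra.trace F E T)) = 1 := by
      rw [← hT]
      unfold ordv
      rw [h3]
    rw [ordW, he] at h4
    have h5 : (p : ℤ) ∣ 1 := ⟨_, h4.symm⟩
    have h6 : p ∣ 1 := by exact_mod_cast h5
    exact hp.out.one_lt.ne' (Nat.dvd_one.1 h6)
  obtain ⟨g, hg⟩ := hex
  set t : E := g T / T with ht
  have htv : W.valuation E t = 1 := by
    rw [ht, map_div₀, hst, div_self hVT]
  have ht1 : ¬ W.valuation E (t - 1) < 1 := by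
    intro h1
    apply hg
    have h2 : g T - T = (t - 1) * T := by
      rw [ht]
      field_simp
    rw [h2, map_mul]
    calc W.valuation E (t - 1) * W.valuation E T < 1 * W.valuation E T :=
          mul_lt_mul_of_pos_right h1 (zero_lt_iff.2 hVT)
      _ = W.valuation E T := one_mul _
  obtain ⟨c, hc⟩ := approx_F (F := F) hf htv.le
  have hcv : W.valuation E (algebraMap F E (c : F)) = 1 := by
    rw [← htv]
    apply val_of_close
    rw [htv, Valuation.map_sub_swap]
    exact hc
  have hc0 : algebraMap F E (c : F) ≠ 0 := by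
    intro h
    rw [h, map_zero] at hcv
    exact zero_ne_one hcv
  -- the product
  have hgp : g ^ p = 1 := by rw [← hcard]; exact pow_card_eq_one
  have htel : ∀ i : ℕ, ∏ j ∈ Finset.range i, (g ^ j) t = (g ^ i) T / T := by
    intro i
    induction i with
    | zero => rw [Finset.prod_range_zero, pow_zero, AlgEquiv.one_apply, div_self hT0]
    | succ i ih =>
      rw [Finset.prod_range_succ, ih, ht, map_div₀, ← AlgEquiv.mul_apply, ← pow_succ]
      have h1 : (g ^ i) T ≠ 0 := fun h ↦ hT0 ((g ^ i).injective (by rw [h, map_zero]))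
      field_simp
  have hclose : ∀ i : ℕ, W.valuation E ((∏ j ∈ Finset.range i, (g ^ j) t) *
      ((algebraMap F E (c : F))⁻¹) ^ i - 1) < 1 := by
    intro i
    induction i with
    | zero =>
      rw [Finset.prod_range_zero, pow_zero, mul_one, sub_self, map_zero]
      exact zero_lt_one
    | succ i ih =>
      rw [Finset.prod_range_succ, pow_succ, mul_mul_mul_comm]
      refine close_mul W ih ?_
      have h1 : (g ^ i) t * (algebraMap F E (c : F))⁻¹ - 1 =
          (g ^ i) (t - algebraMap F E (c : F)) * (algebraMap F E (c : F))⁻¹ := by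
        rw [map_sub, AlgEquiv.commutes, sub_mul, mul_inv_cancel₀ hc0]
      rw [h1, map_mul, map_inv₀, hcv, inv_one, mul_one, hst]
      exact hc
  have hcp : (bel F W).valuation F ((c : F) ^ p - 1) < 1 := by
    rw [← val_lt_iff he0]
    have h1 := hclose p
    rw [htel, hgp, AlgEquiv.one_apply, div_self hT0, one_mul, inv_pow] at h1
    have h2 := close_inv W h1
    rw [inv_inv] at h2
    rwa [map_sub, map_pow, map_one]
  have hc1 : ¬ (bel F W).valuation F ((c : F) - 1) < 1 := by
    rw [← val_lt_iff he0, map_sub, map_one]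
    intro h1
    apply ht1
    have h2 : t - 1 = (t - algebraMap F E (c : F)) + (algebraMap F E (c : F) - 1) := by ring
    rw [h2]
    exact (W.valuation E).map_add_lt hc h1
  -- the residue field
  set v := bel F W with hv
  have hmax : v.asIdeal.IsMaximal := v.isMaximal
  let _ : Field (𝓞 F ⧸ v.asIdeal) := Ideal.Quotient.field v.asIdeal
  have : Finite (𝓞 F ⧸ v.asIdeal) := Ideal.finiteQuotientOfFreeOfNeBot v.asIdeal v.ne_bot
  have hcardu : Nat.card (𝓞 F ⧸ v.asIdeal)ˣ = Ideal.absNorm v.asIdeal - 1 := by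
    rw [Nat.card_units]
    rfl
  have e1 : (Ideal.Quotient.mk v.asIdeal c) ^ p = 1 := by
    rw [← map_pow, ← map_one (Ideal.Quotient.mk v.asIdeal), Ideal.Quotient.eq,
      ← mem_iff_val v]
    show v.valuation F (algebraMap (𝓞 F) F (c ^ p - 1)) < 1
    rw [map_sub, map_pow, map_one]
    exact hcp
  have e2 : Ideal.Quotient.mk v.asIdeal c ≠ 1 := by
    rw [← map_one (Ideal.Quotient.mk v.asIdeal), Ne, Ideal.Quotient.eq, ← mem_iff_val v]
    show ¬ v.valuation F (algebraMap (𝓞 F) F (c - 1)) < 1
    rw [map_sub, map_one]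
    exact hc1
  have e3 : Ideal.Quotient.mk v.asIdeal c ≠ 0 := by
    intro h
    rw [h, zero_pow hp.out.ne_zero] at e1
    exact zero_ne_one e1
  have e4 : orderOf (Units.mk0 _ e3) = p := by
    apply orderOf_eq_prime
    · ext
      rw [Units.val_pow_eq_pow_val, Units.val_mk0, e1, Units.val_one]
    · intro h
      apply e2
      have := congrArg Units.val h
      rwa [Units.val_mk0, Units.val_one] at this
  rw [← hcardu, ← e4]
  exact orderOf_dvd_natCard _

end

theorem x_lcf : Pool.Agent.Helper76.PB.X_LCF := by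
  intro p hp F E _ _ _ _ _ _ hdeg v W hab hvp hnf
  obtain rfl := bel_of_above hab
  have hefg := efg (K := F) W
  have hef1 : W.asIdeal.ramificationIdx (𝓞 F) * W.asIdeal.inertiaDeg (𝓞 F) ≠ 1 := fun h ↦
    hnf (Pool.Agent.Helper83.PP.free_of_ef W h)
  rw [hdeg] at hefg
  have hef : W.asIdeal.ramificationIdx (𝓞 F) * W.asIdeal.inertiaDeg (𝓞 F) = p :=
    ((Nat.dvd_prime hp.out).1 (Dvd.intro_left _ hefg)).resolve_left hef1
  have hg1 : ((bel F W).asIdeal.primesOver (𝓞 E)).ncard = 1 := by
    rw [hef] at hefg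
    exact Nat.eq_of_mul_eq_mul_right hp.out.pos (by rw [hefg, one_mul])
  have hst := fun (g : E ≃ₐ[F] E) (y : E) ↦ stable hg1 g y
  have he' : (bel F W).asIdeal.ramificationIdx' W.asIdeal = W.asIdeal.ramificationIdx (𝓞 F) :=
    Ideal.ramificationIdx'_eq_ramificationIdx _ _ (bel F W).ne_bot
  have hnrm : ∀ y : Eˣ, ((nrm F E y : Fˣ) : F) = Algebra.norm F (y : E) := fun y ↦ rfl
  have hkey : ∀ y : E, (W.asIdeal.ramificationIdx (𝓞 F) : ℤ) * ordv (bel F W) (Algebra.norm F y) =
      p * ordv W y := by
    intro y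
    rw [← ordv_norm hdeg hst y, ordW, he']
  have hloc : ∀ x : Fˣ, LocPow p (bel F W) (x : F) → (p : ℤ) ∣ ordv (bel F W) (x : F) := by
    rintro x ⟨y, hy⟩
    have h1 := val_one_of_close _ hy
    have hy0 : y ≠ 0 := by
      rintro rfl
      rw [zero_pow hp.out.ne_zero, mul_zero, map_zero] at h1
      exact zero_ne_one h1
    have h2 := ordv_eq_zero _ h1
    rw [ordv_mul _ x.ne_zero (pow_ne_zero _ hy0), ordv_pow] at h2
    exact ⟨-ordv (bel F W) y, by linarith⟩
  rcases (Nat.dvd_prime hp.out).1 (Dvd.intro _ hef) with he | he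
  · -- unramified
    refine ⟨fun x ↦ ((ordv (bel F W) (x : F) : ℤ) : ZMod p), ?_, ?_, ?_, ?_⟩
    · intro x y
      show ((ordv (bel F W) ((x * y : Fˣ) : F) : ℤ) : ZMod p) = _
      rw [Units.val_mul, ordv_mul _ x.ne_zero y.ne_zero, Int.cast_add]
    · intro x hx
      exact (ZMod.intCast_zmod_eq_zero_iff_dvd _ p).2 (hloc x hx)
    · intro y
      refine (ZMod.intCast_zmod_eq_zero_iff_dvd _ p).2 ?_
      rw [hnrm]
      have h1 := hkey (y : E)
      rw [he, Nat.cast_one, one_mul] at h1
      rw [h1]
      exact dvd_mul_right _ _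
    · obtain ⟨π, hπ⟩ := (bel F W).valuation_exists_uniformizer F
      have hπ0 : π ≠ 0 := by
        rintro rfl
        rw [map_zero] at hπ
        exact WithZero.exp_ne_zero hπ.symm
      refine ⟨Units.mk0 π hπ0, ?_⟩
      show ((ordv (bel F W) ((Units.mk0 π hπ0 : Fˣ) : F) : ℤ) : ZMod p) = 1
      rw [Units.val_mk0]
      unfold ordv
      rw [hπ, WithZero.log_exp]
      simp
  · -- ramified
    have hf : W.asIdeal.inertiaDeg (𝓞 F) = 1 := by
      rw [he] at hef
      exact Nat.eq_of_mul_eq_mul_left hp.out.pos (by rw [hef, mul_one])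
    obtain ⟨T, hT⟩ := W.valuation_exists_uniformizer E
    have hT0 : T ≠ 0 := by
      rintro rfl
      rw [map_zero] at hT
      exact WithZero.exp_ne_zero hT.symm
    have hTo : ordv W T = 1 := by
      unfold ordv
      rw [hT, WithZero.log_exp]
      simp
    have hno : ordv (bel F W) (Algebra.norm F T) = 1 := by
      have h1 := hkey T
      rw [he, hTo] at h1
      have h2 : (p : ℤ) ≠ 0 := by exact_mod_cast hp.out.ne_zero
      exact mul_left_cancel₀ h2 h1
    have hn0 : Algebra.norm F T ≠ 0 := (Algebra.norm_ne_zero_iff).2 hT0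
    obtain ⟨θ, t1, t2, t3⟩ := exists_tame p (bel F W) (Algebra.norm F T) hn0 hno
      (dvd_norm hdeg hst (he'.trans he) hf hvp hTo)
    refine ⟨θ, t1, ?_, ?_, t3 1⟩
    · rintro x ⟨y, hy⟩
      exact (t2 x).2 ⟨0, y, by simpa using hy⟩
    · intro y
      refine (t2 _).2 ?_
      rw [mem_GG, hnrm]
      set j := ordv W (y : E) with hj
      set u : E := (y : E) * T ^ (-j) with hu
      have hu0 : u ≠ 0 := mul_ne_zero y.ne_zero (zpow_ne_zero _ hT0)
      have huv : W.valuation E u = 1 := by
        apply val_one_of_ordv W hu0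
        rw [hu, ordv_mul W y.ne_zero (zpow_ne_zero _ hT0), ordv_zpow, hTo, ← hj]
        ring
      obtain ⟨c, hc⟩ := approx_F (F := F) hf huv.le
      have hcv : W.valuation E (algebraMap F E (c : F)) = 1 := by
        rw [← huv]
        apply val_of_close
        rw [huv, Valuation.map_sub_swap]
        exact hc
      have hcE : algebraMap F E (c : F) ≠ 0 := by
        intro h
        rw [h, map_zero] at hcv
        exact zero_ne_one hcv
      have hc0 : (c : F) ≠ 0 := by
        intro h
        apply hcE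
        rw [h, map_zero]
      have hcl : W.valuation E (u * (algebraMap F E (c : F))⁻¹ - 1) < 1 := by
        have h1 : u * (algebraMap F E (c : F))⁻¹ - 1 =
            (u - algebraMap F E (c : F)) * (algebraMap F E (c : F))⁻¹ := by
          rw [sub_mul, mul_inv_cancel₀ hcE]
        rw [h1, map_mul, map_inv₀, hcv, inv_one, mul_one]
        exact hc
      have hN := norm_close hst (by rw [he', he]; exact hp.out.ne_zero) hcl
      have hz : Algebra.norm F (T ^ (-j)) = Algebra.norm F T ^ (-j) := by
        have h := congrArg Units.val (map_zpow (nrm F E) (Units.mk0 T hT0) (-j))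
        rwa [hnrm, Units.val_zpow_eq_zpow_val, Units.val_zpow_eq_zpow_val, hnrm, Units.val_mk0] at h
      refine ⟨-j, (c : F)⁻¹, ?_⟩
      have h1 : Algebra.norm F (u * (algebraMap F E (c : F))⁻¹) =
          Algebra.norm F (y : E) * Algebra.norm F T ^ (-j) * (c : F)⁻¹ ^ p := by
        rw [map_mul, hu, map_mul, hz, ← map_inv₀ (algebraMap F E), Algebra.norm_algebraMap,
          hdeg]
      rw [← h1]
      exact hN

end Pool.Agent.Helper32.PB
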